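import Mathlib
set_option autoImplicit false

/-! Topology of planar domains with Lipschitz boundary. -/

namespace Pool.Agent.Run7.h918.PP

open MeasureTheory Set Metric Filter Topology

/-- the plane -/
abbrev P2 := EuclideanSpace ℝ (Fin 2)

/-- near each boundary point the set lies above the graph of a Lipschitz function -/
def LipBd (Ω : Set P2) : Prop :=
  ∀ p ∈ frontier Ω, ∃ e f : P2, ‖e‖ = 1 ∧ ‖f‖ = 1 ∧ @inner ℝ P2 _ e f = 0 ∧
    ∃ r : ℝ, 0 < r ∧ ∃ K : NNReal, ∃ g : ℝ → ℝ, LipschitzWith K g ∧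
      ∀ x ∈ ball p r, (x ∈ Ω ↔ g (@inner ℝ P2 _ x e) < @inner ℝ P2 _ x f)

theorem inner_two (x y : P2) : @inner ℝ P2 _ x y = x 0 * y 0 + x 1 * y 1 := by
  rw [PiLp.inner_apply, Fin.sum_univ_two]
  simp [mul_comm]

theorem expand (e f : P2) (he : ‖e‖ = 1) (hf : ‖f‖ = 1) (hef : @inner ℝ P2 _ e f = 0) (y : P2) :
    y = (@inner ℝ P2 _ y e) • e + (@inner ℝ P2 _ y f) • f := by
  have h1 : e 0 * e 0 + e 1 * e 1 = 1 := by
    rw [← inner_two, real_inner_self_eq_norm_sq, he]; norm_num
  have h2 : f 0 * f 0 + f 1 * f 1 = 1 := by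
    rw [← inner_two, real_inner_self_eq_norm_sq, hf]; norm_num
  have h3 : e 0 * f 0 + e 1 * f 1 = 0 := by rw [← inner_two]; exact hef
  set D : ℝ := e 0 * f 1 - e 1 * f 0 with hD
  have hD2 : D * D = 1 := by
    rw [hD]
    linear_combination (f 0 * f 0 + f 1 * f 1) * h1 + h2 - (e 0 * f 0 + e 1 * f 1) * h3
  have hf1 : f 1 = D * e 0 := by
    rw [hD]
    linear_combination (-f 1) * h1 + e 1 * h3
  have hf0 : f 0 = -D * e 1 := by
    rw [hD]
    linear_combination (-f 0) * h1 + e 0 * h3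
  ext i
  fin_cases i
  · simp only [Fin.zero_eta, PiLp.add_apply, PiLp.smul_apply, smul_eq_mul, inner_two]
    rw [hf1, hf0]
    linear_combination (-y 0) * h1 + (y 1 * e 0 * e 1 - y 0 * e 1 * e 1) * hD2
  · simp only [Fin.mk_one, PiLp.add_apply, PiLp.smul_apply, smul_eq_mul, inner_two]
    rw [hf1, hf0]
    linear_combination (-y 1) * h1 + (y 0 * e 0 * e 1 - y 1 * e 0 * e 0) * hD2

/-- the local data at a boundary point -/
structure Loc (Ω : Set P2) (p e f : P2) (r : ℝ) (K : NNReal) (g : ℝ → ℝ) : Prop where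
  he : ‖e‖ = 1
  hf : ‖f‖ = 1
  hef : @inner ℝ P2 _ e f = 0
  hr : 0 < r
  hg : LipschitzWith K g
  mem : ∀ x ∈ ball p r, (x ∈ Ω ↔ g (@inner ℝ P2 _ x e) < @inner ℝ P2 _ x f)

variable {Ω : Set P2} {p e f : P2} {r : ℝ} {K : NNReal} {g : ℝ → ℝ}

theorem Loc.cont (L : Loc Ω p e f r K g) :
    Continuous fun x : P2 => @inner ℝ P2 _ x f - g (@inner ℝ P2 _ x e) := by
  have h1 : Continuous fun x : P2 => @inner ℝ P2 _ x f := by fun_prop
  have h2 : Continuous fun x : P2 => @inner ℝ P2 _ x e := by fun_prop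
  exact h1.sub (L.hg.continuous.comp h2)

theorem Loc.fe (L : Loc Ω p e f r K g) : @inner ℝ P2 _ f e = 0 := by
  rw [real_inner_comm]; exact L.hef

theorem Loc.ff (L : Loc Ω p e f r K g) : @inner ℝ P2 _ f f = 1 := by
  rw [real_inner_self_eq_norm_sq, L.hf]; norm_num

theorem Loc.ee (L : Loc Ω p e f r K g) : @inner ℝ P2 _ e e = 1 := by
  rw [real_inner_self_eq_norm_sq, L.he]; norm_num

/-- the function measuring the height above the graph, along vertical lines -/
theorem Loc.vert (L : Loc Ω p e f r K g) (x : P2) (t : ℝ) :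
    @inner ℝ P2 _ (x + t • f) f - g (@inner ℝ P2 _ (x + t • f) e) =
      @inner ℝ P2 _ x f - g (@inner ℝ P2 _ x e) + t := by
  rw [inner_add_left, inner_add_left, real_inner_smul_left, real_inner_smul_left, L.ff, L.fe,
    mul_one, mul_zero, add_zero]
  ring

theorem Loc.closure_iff (L : Loc Ω p e f r K g) {x : P2} (hx : x ∈ ball p r) :
    x ∈ closure Ω ↔ 0 ≤ @inner ℝ P2 _ x f - g (@inner ℝ P2 _ x e) := by
  constructor
  · intro h
    by_contra hc
    push Not at hc
    have hopen : IsOpen (ball p r ∩ {y : P2 | @inner ℝ P2 _ y f - g (@inner ℝ P2 _ y e) < 0}) :=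
      isOpen_ball.inter (isOpen_lt L.cont continuous_const)
    rw [_root_.mem_closure_iff] at h
    obtain ⟨y, ⟨hy1, hy2⟩, hy3⟩ := h _ hopen ⟨hx, hc⟩
    have h4 := (L.mem y hy1).1 hy3
    have h5 : @inner ℝ P2 _ y f - g (@inner ℝ P2 _ y e) < 0 := hy2
    linarith
  · intro h
    -- the points x + t f
    have hc : Continuous fun t : ℝ => x + t • f := by fun_prop
    have ht : Tendsto (fun t : ℝ => x + t • f) (𝓝[>] 0) (𝓝 x) := by
      have h1 : Tendsto (fun t : ℝ => x + t • f) (𝓝 0) (𝓝 (x + (0 : ℝ) • f)) := hc.tendsto 0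
      rw [zero_smul, add_zero] at h1
      exact h1.mono_left nhdsWithin_le_nhds
    apply mem_closure_of_tendsto ht
    filter_upwards [ht.eventually (isOpen_ball.mem_nhds hx), self_mem_nhdsWithin] with t ht1 ht2
    rw [L.mem _ ht1]
    have h3 := L.vert x t
    have h4 : (0 : ℝ) < t := ht2
    linarith

theorem Loc.frontier_iff (L : Loc Ω p e f r K g) (hΩ : IsOpen Ω) {x : P2} (hx : x ∈ ball p r) :
    x ∈ frontier Ω ↔ @inner ℝ P2 _ x f - g (@inner ℝ P2 _ x e) = 0 := by
  rw [hΩ.frontier_eq, Set.mem_sdiff, L.closure_iff hx, L.mem x hx]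
  constructor
  · rintro ⟨h1, h2⟩
    linarith
  · intro h
    constructor
    · linarith
    · linarith

theorem LipBd.loc (h : LipBd Ω) {p : P2} (hp : p ∈ frontier Ω) :
    ∃ (e f : P2) (r : ℝ) (K : NNReal) (g : ℝ → ℝ), Loc Ω p e f r K g := by
  obtain ⟨e, f, he, hf, hef, r, hr, K, g, hg, hm⟩ := h p hp
  exact ⟨e, f, r, K, g, he, hf, hef, hr, hg, hm⟩

/-- exterior points near a boundary point -/
theorem Loc.ext_mem (L : Loc Ω p e f r K g) (hΩ : IsOpen Ω) (hp : p ∈ frontier Ω) :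
    p ∈ closure (closure Ω)ᶜ := by
  have hpb : p ∈ ball p r := mem_ball_self L.hr
  have h0 := (L.frontier_iff hΩ hpb).1 hp
  have hc : Continuous fun t : ℝ => p + t • f := by fun_prop
  have ht : Tendsto (fun t : ℝ => p + t • f) (𝓝[<] 0) (𝓝 p) := by
    have h1 : Tendsto (fun t : ℝ => p + t • f) (𝓝 0) (𝓝 (p + (0 : ℝ) • f)) := hc.tendsto 0
    rw [zero_smul, add_zero] at h1
    exact h1.mono_left nhdsWithin_le_nhds
  apply mem_closure_of_tendsto ht
  filter_upwards [ht.eventually (isOpen_ball.mem_nhds hpb), self_mem_nhdsWithin] with t ht1 ht2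
  rw [mem_compl_iff, L.closure_iff ht1]
  have h3 := L.vert p t
  have h4 : t < (0 : ℝ) := ht2
  linarith

theorem interior_closure_eq (h : LipBd Ω) (hΩ : IsOpen Ω) : interior (closure Ω) = Ω := by
  apply subset_antisymm
  · intro p hp
    by_contra hc
    have hpf : p ∈ frontier Ω := by
      rw [hΩ.frontier_eq]
      exact ⟨interior_subset hp, hc⟩
    obtain ⟨e, f, r, K, g, L⟩ := h.loc hpf
    have h1 := L.ext_mem hΩ hpf
    rw [closure_compl, mem_compl_iff] at h1
    exact h1 hp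
  · exact interior_maximal subset_closure hΩ

theorem frontier_null (h : LipBd Ω) (hΩ : IsOpen Ω) : volume (frontier Ω) = 0 := by
  apply measure_null_of_locally_null
  intro p hp
  obtain ⟨e, f, r, K, g, L⟩ := h.loc hp
  set S : Set P2 := ball p r ∩ {x | @inner ℝ P2 _ x f - g (@inner ℝ P2 _ x e) = 0} with hS
  have hSm : MeasurableSet S :=
    measurableSet_ball.inter (measurableSet_eq_fun L.cont.measurable measurable_const)
  refine ⟨frontier Ω ∩ ball p r, inter_mem_nhdsWithin _ (ball_mem_nhds p L.hr), ?_⟩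
  have hsub : frontier Ω ∩ ball p r ⊆ S := by
    rintro x ⟨hx1, hx2⟩
    exact ⟨hx2, (L.frontier_iff hΩ hx2).1 hx1⟩
  apply measure_mono_null hsub
  refine Measure.addHaar_eq_zero_of_disjoint_translates volume
    (fun n : ℕ => ((1 : ℝ) / (n + 1)) • f) ?_ ?_ hSm
  · apply (isBounded_iff_forall_norm_le.2 ⟨1, ?_⟩)
    rintro x ⟨n, rfl⟩
    rw [norm_smul, L.hf, mul_one, Real.norm_of_nonneg (by positivity)]
    rw [div_le_one (by positivity)]
    have : (0 : ℝ) ≤ n := by positivity
    linarith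
  · intro m n hmn
    rw [Function.onFun, Set.disjoint_left]
    rintro x hx1 hx2
    rw [Set.singleton_add, Set.mem_image] at hx1 hx2
    obtain ⟨a, ha, rfl⟩ := hx1
    obtain ⟨b, hb, hab⟩ := hx2
    have h1 := L.vert a (1 / (m + 1))
    have h2 := L.vert b (1 / (n + 1))
    have ha2 : @inner ℝ P2 _ a f - g (@inner ℝ P2 _ a e) = 0 := ha.2
    have hb2 : @inner ℝ P2 _ b f - g (@inner ℝ P2 _ b e) = 0 := hb.2
    rw [ha2, zero_add, add_comm a] at h1
    rw [hb2, zero_add, add_comm b, hab] at h2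
    rw [h2] at h1
    apply hmn
    have h3 : (1 : ℝ) / (n + 1) = 1 / (m + 1) := h1
    have hm0 : (0 : ℝ) < m + 1 := by positivity
    have hn0 : (0 : ℝ) < n + 1 := by positivity
    rw [div_eq_div_iff hn0.ne' hm0.ne'] at h3
    have h4 : (m : ℝ) = n := by linarith
    exact_mod_cast h4

/-- the local exterior is contained in a connected subset of the exterior -/
theorem Loc.local_ext (L : Loc Ω p e f r K g) (hΩ : IsOpen Ω) (hp : p ∈ frontier Ω) :
    ∃ (W : Set P2) (δ : ℝ), 0 < δ ∧ IsPreconnected W ∧ W ⊆ (closure Ω)ᶜ ∧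
      ball p δ ∩ (closure Ω)ᶜ ⊆ W := by
  have hpb : p ∈ ball p r := mem_ball_self L.hr
  have h0 := (L.frontier_iff hΩ hpb).1 hp
  have hK : (0 : ℝ) ≤ K := K.2
  set s : ℝ := r / (2 * (1 + K)) with hs
  have hr := L.hr
  have hs0 : 0 < s := by positivity
  have hsr : s ≤ r := by
    rw [hs, div_le_iff₀ (by positivity)]
    nlinarith
  set Φ : ℝ × ℝ → P2 := fun q => p + q.1 • e +
    (g (@inner ℝ P2 _ p e + q.1) - @inner ℝ P2 _ p f - q.2) • f with hΦ
  have hΦc : Continuous Φ := by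
    rw [hΦ]
    have h1 : Continuous fun q : ℝ × ℝ => g (@inner ℝ P2 _ p e + q.1) :=
      L.hg.continuous.comp (by fun_prop)
    have h2 : Continuous fun q : ℝ × ℝ =>
        g (@inner ℝ P2 _ p e + q.1) - @inner ℝ P2 _ p f - q.2 :=
      (h1.sub continuous_const).sub continuous_snd
    exact (continuous_const.add (continuous_fst.smul continuous_const)).add
      (h2.smul continuous_const)
  have hin1 : ∀ q : ℝ × ℝ, @inner ℝ P2 _ (Φ q) e = @inner ℝ P2 _ p e + q.1 := by
    intro q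
    rw [hΦ]
    simp only [inner_add_left, real_inner_smul_left, L.ee, L.fe]
    ring
  have hin2 : ∀ q : ℝ × ℝ, @inner ℝ P2 _ (Φ q) f = g (@inner ℝ P2 _ p e + q.1) - q.2 := by
    intro q
    rw [hΦ]
    simp only [inner_add_left, real_inner_smul_left, L.hef, L.ff]
    ring
  have hdist : ∀ q : ℝ × ℝ, q ∈ Ioo (-s) s ×ˢ Ioo (0 : ℝ) (r / 2) → Φ q ∈ ball p r := by
    rintro ⟨a, b⟩ ⟨ha, hb⟩
    rw [mem_ball, dist_eq_norm]
    have e1 : Φ (a, b) - p = a • e + (g (@inner ℝ P2 _ p e + a) - @inner ℝ P2 _ p f - b) • f := by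
      rw [hΦ]
      simp only
      abel
    rw [e1]
    have h1 : |a| < s := abs_lt.2 ha
    have h2 : |g (@inner ℝ P2 _ p e + a) - g (@inner ℝ P2 _ p e)| ≤ K * |a| := by
      have := L.hg.dist_le_mul (@inner ℝ P2 _ p e + a) (@inner ℝ P2 _ p e)
      rw [Real.dist_eq, Real.dist_eq, add_sub_cancel_left] at this
      exact this
    have h3 : |g (@inner ℝ P2 _ p e + a) - @inner ℝ P2 _ p f - b| ≤ K * |a| + b := by
      have h4 : g (@inner ℝ P2 _ p e + a) - @inner ℝ P2 _ p f - b =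
          (g (@inner ℝ P2 _ p e + a) - g (@inner ℝ P2 _ p e)) - b := by linarith
      rw [h4]
      refine (abs_sub _ _).trans ?_
      rw [abs_of_pos hb.1]
      linarith
    have h5 : ‖a • e + (g (@inner ℝ P2 _ p e + a) - @inner ℝ P2 _ p f - b) • f‖ ≤
        |a| + (K * |a| + b) := by
      refine (norm_add_le _ _).trans ?_
      rw [norm_smul, norm_smul, L.he, L.hf, mul_one, mul_one, Real.norm_eq_abs, Real.norm_eq_abs]
      linarith
    have h6 : (1 + K) * s = r / 2 := by
      rw [hs]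
      field_simp
    have h7 : (1 + (K : ℝ)) * |a| ≤ (1 + K) * s := by gcongr
    have h8 := hb.2
    simp only at h8
    nlinarith
  refine ⟨Φ '' (Ioo (-s) s ×ˢ Ioo (0 : ℝ) (r / 2)), s / 2 / (1 + K), by positivity, ?_, ?_, ?_⟩
  · exact ((isPreconnected_Ioo).prod isPreconnected_Ioo).image _ hΦc.continuousOn
  · rintro _ ⟨q, hq, rfl⟩
    rw [mem_compl_iff, L.closure_iff (hdist q hq), hin1, hin2]
    have := hq.2.1
    linarith
  · rintro x ⟨hx1, hx2⟩
    have hxd : ‖x - p‖ < s / 2 / (1 + K) := by rw [← dist_eq_norm]; exact hx1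
    have hxs : ‖x - p‖ < s / 2 := by
      refine hxd.trans_le ?_
      apply div_le_self (by positivity)
      linarith
    have hxs' : (1 + K) * ‖x - p‖ < s / 2 := by
      rw [lt_div_iff₀ (by positivity)] at hxd
      linarith
    have hxr : x ∈ ball p r := by
      rw [mem_ball, dist_eq_norm]
      linarith
    have hext : @inner ℝ P2 _ x f - g (@inner ℝ P2 _ x e) < 0 := by
      rw [mem_compl_iff, L.closure_iff hxr] at hx2
      linarith
    set a : ℝ := @inner ℝ P2 _ (x - p) e with ha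
    set b : ℝ := g (@inner ℝ P2 _ x e) - @inner ℝ P2 _ x f with hb
    have ha1 : |a| ≤ ‖x - p‖ := by
      have := abs_real_inner_le_norm (x - p) e
      rwa [L.he, mul_one] at this
    have hb1 : |@inner ℝ P2 _ (x - p) f| ≤ ‖x - p‖ := by
      have := abs_real_inner_le_norm (x - p) f
      rwa [L.hf, mul_one] at this
    have hxe : @inner ℝ P2 _ x e = @inner ℝ P2 _ p e + a := by
      rw [ha, inner_sub_left]; ring
    have hxf : @inner ℝ P2 _ x f = @inner ℝ P2 _ p f + @inner ℝ P2 _ (x - p) f := by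
      rw [inner_sub_left]; ring
    have h2 : |g (@inner ℝ P2 _ p e + a) - g (@inner ℝ P2 _ p e)| ≤ K * |a| := by
      have := L.hg.dist_le_mul (@inner ℝ P2 _ p e + a) (@inner ℝ P2 _ p e)
      rw [Real.dist_eq, Real.dist_eq, add_sub_cancel_left] at this
      exact this
    have hb2 : b < r / 2 := by
      have h3 : b ≤ K * |a| + ‖x - p‖ := by
        rw [hb, hxe, hxf]
        have h4 := le_abs_self (g (@inner ℝ P2 _ p e + a) - g (@inner ℝ P2 _ p e))
        have h5 := neg_abs_le (@inner ℝ P2 _ (x - p) f)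
        linarith
      have h6 : (K : ℝ) * |a| ≤ K * ‖x - p‖ := by gcongr
      linarith
    refine ⟨(a, b), ⟨abs_lt.1 (by linarith), by simp only; linarith, hb2⟩, ?_⟩
    have h9 := expand e f L.he L.hf L.hef (x - p)
    rw [hΦ]
    simp only
    rw [← hxe]
    have h10 : g (@inner ℝ P2 _ x e) - @inner ℝ P2 _ p f - b = @inner ℝ P2 _ (x - p) f := by
      rw [hb, hxf]; ring
    rw [h10, add_assoc, ← h9]
    abel

theorem compl_closure_connected (h : LipBd Ω) (hΩ : IsOpen Ω) (hb : Bornology.IsBounded Ω)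
    (hJ : IsPreconnected (frontier Ω)) : IsConnected (closure Ω)ᶜ := by
  set X : Set P2 := (closure Ω)ᶜ with hX
  have hXo : IsOpen X := isClosed_closure.isOpen_compl
  have hXne : X.Nonempty := by
    obtain ⟨R, hR⟩ := hb.closure.subset_closedBall (0 : P2)
    refine ⟨EuclideanSpace.single 0 (|R| + 1), fun hc => ?_⟩
    have h1 := hR hc
    rw [mem_closedBall, dist_zero_right] at h1
    have h2 : ‖EuclideanSpace.single (0 : Fin 2) (|R| + 1)‖ = |R| + 1 := by
      rw [PiLp.norm_single, Real.norm_of_nonneg (by positivity)]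
    rw [h2] at h1
    have := le_abs_self R
    linarith
  refine ⟨hXne, ?_⟩
  rw [isPreconnected_iff_subset_of_disjoint]
  intro U V hU hV hXUV hdis
  by_contra hcon
  push Not at hcon
  obtain ⟨hnU, hnV⟩ := hcon
  -- disjoint open pieces
  have key : ∀ U V : Set P2, IsOpen U → IsOpen V → X ⊆ U ∪ V → X ∩ (U ∩ V) = ∅ →
      ¬ X ⊆ U → frontier Ω ⊆ closure (X ∩ U) → X ∩ U ≠ ∅ → False := by
    intro U V hU hV hXUV hdis hnU hsub hne
    set A := X ∩ U with hA
    set B := X ∩ V with hB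
    have hAo : IsOpen A := hXo.inter hU
    have hBo : IsOpen B := hXo.inter hV
    have hAB : A ∩ B = ∅ := by
      rw [← hdis, hA, hB]
      ext x
      simp only [mem_inter_iff]
      tauto
    have hXAB : X = A ∪ B := by
      rw [hA, hB, ← inter_union_distrib_left]
      exact (inter_eq_left.2 hXUV).symm
    -- no boundary point is in the closure of both
    have hboth : ∀ p ∈ frontier Ω, p ∈ closure A → p ∈ closure B → False := by
      intro p hp hpA hpB
      obtain ⟨e, f, r, K, g, L⟩ := h.loc hp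
      obtain ⟨W, δ, hδ, hWc, hWX, hWs⟩ := L.local_ext hΩ hp
      rw [_root_.mem_closure_iff] at hpA hpB
      obtain ⟨y, hy1, hy2⟩ := hpA _ isOpen_ball (mem_ball_self hδ)
      obtain ⟨z, hz1, hz2⟩ := hpB _ isOpen_ball (mem_ball_self hδ)
      have hyW : y ∈ W := hWs ⟨hy1, hy2.1⟩
      have hzW : z ∈ W := hWs ⟨hz1, hz2.1⟩
      have h1 := hWc A B hAo hBo (by rw [← hXAB]; exact hWX) ⟨y, hyW, hy2⟩ ⟨z, hzW, hz2⟩
      obtain ⟨w, _, hw⟩ := h1
      rw [hAB] at hw
      exact hw
    -- `B` is closed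
    have hBc : IsClosed B := by
      rw [← closure_subset_iff_isClosed]
      intro x hx
      by_cases hxX : x ∈ X
      · rw [hXAB] at hxX
        rcases hxX with hxA | hxB
        · exfalso
          rw [_root_.mem_closure_iff] at hx
          obtain ⟨y, hy1, hy2⟩ := hx A hAo hxA
          have : y ∈ A ∩ B := ⟨hy1, hy2⟩
          rw [hAB] at this
          exact this
        · exact hxB
      · exfalso
        rw [hX, mem_compl_iff, not_not] at hxX
        have hxf : x ∈ frontier Ω := by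
          rw [hΩ.frontier_eq]
          refine ⟨hxX, fun hxΩ => ?_⟩
          rw [_root_.mem_closure_iff] at hx
          obtain ⟨y, hy1, hy2⟩ := hx Ω hΩ hxΩ
          exact hy2.1 (subset_closure hy1)
        exact hboth x hxf (hsub hxf) hx
    have hBcl : IsClopen B := ⟨hBc, hBo⟩
    rcases isClopen_iff.1 hBcl with h1 | h1
    · apply hnU
      intro x hx
      have h2 : x ∈ A ∪ B := by rw [← hXAB]; exact hx
      rw [h1, union_empty] at h2
      exact h2.2
    · rw [h1, inter_univ] at hAB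
      exact hne hAB
  -- the frontier is in the closure of one of the pieces
  have hAne : X ∩ U ≠ ∅ := by
    intro h0
    apply hnV
    intro x hx
    rcases hXUV hx with h1 | h1
    · exfalso
      have : x ∈ X ∩ U := ⟨hx, h1⟩
      rw [h0] at this
      exact this
    · exact h1
  have hBne : X ∩ V ≠ ∅ := by
    intro h0
    apply hnU
    intro x hx
    rcases hXUV hx with h1 | h1
    · exact h1
    · exfalso
      have : x ∈ X ∩ V := ⟨hx, h1⟩
      rw [h0] at this
      exact this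
  have hcov : frontier Ω ⊆ closure (X ∩ U) ∪ closure (X ∩ V) := by
    intro p hp
    obtain ⟨e, f, r, K, g, L⟩ := h.loc hp
    have h1 := L.ext_mem hΩ hp
    rw [← closure_union, ← inter_union_distrib_left, inter_eq_left.2 hXUV]
    exact h1
  have hdisj : frontier Ω ∩ (closure (X ∩ U) ∩ closure (X ∩ V)) = ∅ := by
    rw [eq_empty_iff_forall_notMem]
    rintro p ⟨hp, hpA, hpB⟩
    obtain ⟨e, f, r, K, g, L⟩ := h.loc hp
    obtain ⟨W, δ, hδ, hWc, hWX, hWs⟩ := L.local_ext hΩ hp
    rw [_root_.mem_closure_iff] at hpA hpB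
    obtain ⟨y, hy1, hy2⟩ := hpA _ isOpen_ball (mem_ball_self hδ)
    obtain ⟨z, hz1, hz2⟩ := hpB _ isOpen_ball (mem_ball_self hδ)
    have hyW : y ∈ W := hWs ⟨hy1, hy2.1⟩
    have hzW : z ∈ W := hWs ⟨hz1, hz2.1⟩
    have h1 := hWc (X ∩ U) (X ∩ V) (hXo.inter hU) (hXo.inter hV)
      (by rw [← inter_union_distrib_left, inter_eq_left.2 hXUV]; exact hWX) ⟨y, hyW, hy2⟩
      ⟨z, hzW, hz2⟩
    obtain ⟨w, _, hw⟩ := h1
    have h2 : w ∈ X ∩ (U ∩ V) := ⟨hw.1.1, hw.1.2, hw.2.2⟩
    rw [hdis] at h2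
    exact h2
  rcases isPreconnected_iff_subset_of_disjoint_closed.1 hJ _ _ isClosed_closure isClosed_closure
    hcov hdisj with h1 | h1
  · exact key U V hU hV hXUV hdis hnU h1 hAne
  · exact key V U hV hU (by rwa [union_comm]) (by rwa [inter_comm V U]) hnV h1 hBne

end Pool.Agent.Run7.h918.PP
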