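import Mathlib
import Pool.Agent.Run7.h918.PP.Top
set_option autoImplicit false

/-! From the weak form of the overdetermined problem to the Fourier transform of the indicator. -/

namespace Pool.Agent.Run7.h918.PP

open MeasureTheory Set Metric Filter Topology

/-- the weak form of the overdetermined Neumann problem -/
structure Weak (Ω : Set P2) (lam c : ℝ) (u : P2 → ℝ) (G : P2 → P2) : Prop where
  lam_pos : 0 < lam
  u_mem : MemLp u 2 (volume.restrict Ω)
  G_mem : MemLp G 2 (volume.restrict Ω)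
  dir : ∀ φ : P2 → ℝ, ContDiff ℝ 1 φ → HasCompactSupport φ → ∀ v : P2,
    ∫ x in Ω, (u x - c) * (fderiv ℝ φ x v) = - ∫ x in Ω, @inner ℝ P2 _ (G x) v * φ x
  neu : ∀ φ : P2 → ℝ, ContDiff ℝ 1 φ → HasCompactSupport φ →
    ∫ x in Ω, fderiv ℝ φ x (G x) = lam * ∫ x in Ω, u x * φ x
  ne : ¬ (u =ᵐ[volume.restrict Ω] 0)

variable {Ω : Set P2} {lam c : ℝ} {u : P2 → ℝ} {G : P2 → P2}

/-- a cut-off function -/
theorem exists_cut (hb : Bornology.IsBounded Ω) : ∃ χ : P2 → ℝ, ContDiff ℝ 1 χ ∧
    HasCompactSupport χ ∧ ∀ x ∈ Ω, χ =ᶠ[𝓝 x] fun _ => (1 : ℝ) := by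
  obtain ⟨R, hR⟩ := hb.subset_closedBall (0 : P2)
  let B : ContDiffBump (0 : P2) := ⟨|R| + 1, |R| + 2, by positivity, by linarith⟩
  refine ⟨B, B.contDiff, B.hasCompactSupport, fun x hx => ?_⟩
  have h1 : x ∈ ball (0 : P2) (|R| + 1) := by
    have h2 := hR hx
    rw [mem_closedBall] at h2
    rw [mem_ball]
    have := le_abs_self R
    linarith
  filter_upwards [isOpen_ball.mem_nhds h1] with y hy
  exact B.one_of_mem_closedBall (ball_subset_closedBall hy)

theorem fderiv_cut (χ : P2 → ℝ) (h : P2 → ℝ) {x : P2} (hχ : χ =ᶠ[𝓝 x] fun _ => (1 : ℝ)) (v : P2) :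
    fderiv ℝ (fun y => χ y * h y) x v = fderiv ℝ h x v := by
  have h1 : (fun y => χ y * h y) =ᶠ[𝓝 x] h := by
    filter_upwards [hχ] with y hy
    rw [hy, one_mul]
  rw [h1.fderiv_eq]

/-- the basic identity -/
theorem Weak.fourier (hb : Bornology.IsBounded Ω) (hΩ : IsOpen Ω) (H : Weak Ω lam c u G)
    (ξ : P2) (θ : ℝ) :
    ‖ξ‖ ^ 2 * ∫ x in Ω, (u x - c) * Real.cos (@inner ℝ P2 _ ξ x + θ) =
      lam * ∫ x in Ω, u x * Real.cos (@inner ℝ P2 _ ξ x + θ) := by
  obtain ⟨χ, hχ1, hχ2, hχ3⟩ := exists_cut hb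
  have hΩm : MeasurableSet Ω := hΩ.measurableSet
  have hl : ContDiff ℝ 1 fun x : P2 => @inner ℝ P2 _ ξ x + θ :=
    (contDiff_const.inner ℝ contDiff_id).add contDiff_const
  have hcos : ContDiff ℝ 1 fun x : P2 => Real.cos (@inner ℝ P2 _ ξ x + θ) :=
    Real.contDiff_cos.comp hl
  have hsin : ContDiff ℝ 1 fun x : P2 => Real.sin (@inner ℝ P2 _ ξ x + θ) :=
    Real.contDiff_sin.comp hl
  have hdl : ∀ x : P2, HasFDerivAt (fun x : P2 => @inner ℝ P2 _ ξ x + θ)
      (innerSL ℝ ξ : P2 →L[ℝ] ℝ) x := by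
    intro x
    exact (innerSL ℝ ξ : P2 →L[ℝ] ℝ).hasFDerivAt.add_const θ
  have dcos : ∀ x v : P2, fderiv ℝ (fun x : P2 => Real.cos (@inner ℝ P2 _ ξ x + θ)) x v =
      -(Real.sin (@inner ℝ P2 _ ξ x + θ) * @inner ℝ P2 _ ξ v) := by
    intro x v
    have h1 := (hdl x).cos
    rw [h1.fderiv]
    simp
  have dsin : ∀ x v : P2, fderiv ℝ (fun x : P2 => Real.sin (@inner ℝ P2 _ ξ x + θ)) x v =
      Real.cos (@inner ℝ P2 _ ξ x + θ) * @inner ℝ P2 _ ξ v := by
    intro x v
    have h1 := (hdl x).sin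
    rw [h1.fderiv]
    simp
  have e1 := H.neu (fun y => χ y * Real.cos (@inner ℝ P2 _ ξ y + θ)) (hχ1.mul hcos) hχ2.mul_right
  have e2 := H.dir (fun y => χ y * Real.sin (@inner ℝ P2 _ ξ y + θ)) (hχ1.mul hsin) hχ2.mul_right ξ
  have hχv : ∀ x ∈ Ω, χ x = 1 := fun x hx => (hχ3 x hx).self_of_nhds
  rw [setIntegral_congr_fun hΩm (g := fun x => -(Real.sin (@inner ℝ P2 _ ξ x + θ) *
    @inner ℝ P2 _ ξ (G x))) (fun x hx => by
      simp only
      rw [fderiv_cut χ _ (hχ3 x hx), dcos])] at e1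
  rw [setIntegral_congr_fun hΩm (f := fun x => u x * (χ x * Real.cos (@inner ℝ P2 _ ξ x + θ)))
    (g := fun x => u x * Real.cos (@inner ℝ P2 _ ξ x + θ)) (fun x hx => by
      simp only
      rw [hχv x hx, one_mul])] at e1
  rw [setIntegral_congr_fun hΩm (g := fun x => ‖ξ‖ ^ 2 * ((u x - c) *
    Real.cos (@inner ℝ P2 _ ξ x + θ))) (fun x hx => by
      simp only
      rw [fderiv_cut χ _ (hχ3 x hx), dsin, real_inner_self_eq_norm_sq]
      ring)] at e2
  rw [setIntegral_congr_fun hΩm (f := fun x => @inner ℝ P2 _ (G x) ξ *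
    (χ x * Real.sin (@inner ℝ P2 _ ξ x + θ))) (g := fun x => Real.sin (@inner ℝ P2 _ ξ x + θ) *
    @inner ℝ P2 _ ξ (G x)) (fun x hx => by
      simp only
      rw [hχv x hx, one_mul, real_inner_comm, mul_comm])] at e2
  rw [integral_neg] at e1
  rw [integral_const_mul] at e2
  rw [e2, e1]

theorem cos_int (hb : Bornology.IsBounded Ω) (ξ : P2) (θ : ℝ) :
    IntegrableOn (fun x : P2 => Real.cos (@inner ℝ P2 _ ξ x + θ)) Ω := by
  have hfin : volume Ω < ⊤ := hb.measure_lt_top
  have hc : Continuous fun x : P2 => Real.cos (@inner ℝ P2 _ ξ x + θ) := by fun_prop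
  refine Measure.integrableOn_of_bounded (M := 1) hfin.ne hc.aestronglyMeasurable ?_
  exact Eventually.of_forall fun x => by
    rw [Real.norm_eq_abs]; exact Real.abs_cos_le_one _

theorem Weak.u_int (hb : Bornology.IsBounded Ω) (H : Weak Ω lam c u G) : IntegrableOn u Ω := by
  have hfin : volume Ω < ⊤ := hb.measure_lt_top
  have : IsFiniteMeasure (volume.restrict Ω) := ⟨by rwa [Measure.restrict_apply_univ]⟩
  exact H.u_mem.integrable (by norm_num)

theorem Weak.ucos_int (hb : Bornology.IsBounded Ω) (H : Weak Ω lam c u G) (ξ : P2) (θ : ℝ) :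
    IntegrableOn (fun x : P2 => u x * Real.cos (@inner ℝ P2 _ ξ x + θ)) Ω := by
  have hc : Continuous fun x : P2 => Real.cos (@inner ℝ P2 _ ξ x + θ) := by fun_prop
  refine (H.u_int hb).mul_bdd (c := 1) hc.aestronglyMeasurable ?_
  exact Eventually.of_forall fun x => by
    rw [Real.norm_eq_abs]; exact Real.abs_cos_le_one _

theorem Weak.fourier2 (hb : Bornology.IsBounded Ω) (hΩ : IsOpen Ω) (H : Weak Ω lam c u G)
    (ξ : P2) (θ : ℝ) :
    (‖ξ‖ ^ 2 - lam) * ∫ x in Ω, u x * Real.cos (@inner ℝ P2 _ ξ x + θ) =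
      ‖ξ‖ ^ 2 * (c * ∫ x in Ω, Real.cos (@inner ℝ P2 _ ξ x + θ)) := by
  have h1 := H.fourier hb hΩ ξ θ
  have h2 : ∫ x in Ω, (u x - c) * Real.cos (@inner ℝ P2 _ ξ x + θ) =
      (∫ x in Ω, u x * Real.cos (@inner ℝ P2 _ ξ x + θ)) -
        c * ∫ x in Ω, Real.cos (@inner ℝ P2 _ ξ x + θ) := by
    rw [← integral_const_mul, ← integral_sub (H.ucos_int hb ξ θ) ((cos_int hb ξ θ).const_mul c)]
    congr 1
    funext x
    ring
  rw [h2] at h1
  linear_combination h1

/-- an integrable function all of whose cosine transforms vanish is zero -/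
theorem zero_of_cos {v : P2 → ℝ} (hv : Integrable v (volume.restrict Ω))
    (h : ∀ (ξ : P2) (θ : ℝ), ∫ x in Ω, v x * Real.cos (@inner ℝ P2 _ ξ x + θ) = 0) :
    v =ᵐ[volume.restrict Ω] 0 := by
  set μ : Measure P2 := volume.restrict Ω with hμ
  set μ1 : Measure P2 := μ.withDensity fun x => ENNReal.ofReal (v x) with hμ1
  set μ2 : Measure P2 := μ.withDensity fun x => ENNReal.ofReal (-v x) with hμ2
  have f1 : IsFiniteMeasure μ1 := isFiniteMeasure_withDensity_ofReal hv.2
  have f2 : IsFiniteMeasure μ2 := isFiniteMeasure_withDensity_ofReal hv.neg.2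
  have m1 : AEMeasurable (fun x => ENNReal.ofReal (v x)) μ := hv.1.aemeasurable.ennreal_ofReal
  have m2 : AEMeasurable (fun x => ENNReal.ofReal (-v x)) μ :=
    hv.1.aemeasurable.neg.ennreal_ofReal
  have hchar : charFun μ1 = charFun μ2 := by
    funext t
    rw [charFun_apply, charFun_apply, hμ1, hμ2,
      integral_withDensity_eq_integral_toReal_smul₀ m1
        (Eventually.of_forall fun _ => ENNReal.ofReal_lt_top),
      integral_withDensity_eq_integral_toReal_smul₀ m2
        (Eventually.of_forall fun _ => ENNReal.ofReal_lt_top), ← sub_eq_zero]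
    have hexp : Continuous fun x : P2 => Complex.exp (((@inner ℝ P2 _ x t : ℝ) : ℂ) * Complex.I) := by
      fun_prop
    have hnorm : ∀ x : P2, ‖Complex.exp (((@inner ℝ P2 _ x t : ℝ) : ℂ) * Complex.I)‖ ≤ 1 := by
      intro x
      rw [Complex.norm_exp_ofReal_mul_I]
    have i1 : Integrable (fun x => (ENNReal.ofReal (v x)).toReal •
        Complex.exp (((@inner ℝ P2 _ x t : ℝ) : ℂ) * Complex.I)) μ := by
      have h1 : Integrable (fun x => (ENNReal.ofReal (v x)).toReal) μ := by
        have h2 := hv.real_toNNReal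
        simpa [ENNReal.ofReal] using h2
      have h3 : Integrable (fun x => (((ENNReal.ofReal (v x)).toReal : ℝ) : ℂ) *
          Complex.exp (((@inner ℝ P2 _ x t : ℝ) : ℂ) * Complex.I)) μ :=
        h1.ofReal.mul_bdd (c := 1) hexp.aestronglyMeasurable (Eventually.of_forall hnorm)
      simpa only [Complex.real_smul] using h3
    have i2 : Integrable (fun x => (ENNReal.ofReal (-v x)).toReal •
        Complex.exp (((@inner ℝ P2 _ x t : ℝ) : ℂ) * Complex.I)) μ := by
      have h1 : Integrable (fun x => (ENNReal.ofReal (-v x)).toReal) μ := by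
        have h2 := hv.neg.real_toNNReal
        simpa [ENNReal.ofReal] using h2
      have h3 : Integrable (fun x => (((ENNReal.ofReal (-v x)).toReal : ℝ) : ℂ) *
          Complex.exp (((@inner ℝ P2 _ x t : ℝ) : ℂ) * Complex.I)) μ :=
        h1.ofReal.mul_bdd (c := 1) hexp.aestronglyMeasurable (Eventually.of_forall hnorm)
      simpa only [Complex.real_smul] using h3
    rw [← integral_sub i1 i2]
    have e1 : ∀ x : P2, (ENNReal.ofReal (v x)).toReal •
        Complex.exp (((@inner ℝ P2 _ x t : ℝ) : ℂ) * Complex.I) - (ENNReal.ofReal (-v x)).toReal •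
        Complex.exp (((@inner ℝ P2 _ x t : ℝ) : ℂ) * Complex.I) =
        ((v x * Real.cos (@inner ℝ P2 _ t x + 0) : ℝ) : ℂ) +
          ((v x * Real.cos (@inner ℝ P2 _ t x + (-(Real.pi / 2))) : ℝ) : ℂ) * Complex.I := by
      intro x
      rw [ENNReal.toReal_ofReal', ENNReal.toReal_ofReal', ← sub_smul, Complex.exp_mul_I,
        Complex.real_smul, real_inner_comm]
      have h3 : max (v x) 0 - max (-v x) 0 = v x := by
        rcases le_total (v x) 0 with h | h
        · rw [max_eq_right h, max_eq_left (by linarith)]; ring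
        · rw [max_eq_left h, max_eq_right (by linarith)]; ring
      rw [h3, add_zero, ← sub_eq_add_neg, Real.cos_sub_pi_div_two]
      push_cast
      ring
    simp only [e1]
    have c1 : Continuous fun x : P2 => Real.cos (@inner ℝ P2 _ t x + 0) := by fun_prop
    have c2 : Continuous fun x : P2 => Real.cos (@inner ℝ P2 _ t x + (-(Real.pi / 2))) := by
      fun_prop
    have j1 : Integrable (fun x => v x * Real.cos (@inner ℝ P2 _ t x + 0)) μ :=
      hv.mul_bdd (c := 1) c1.aestronglyMeasurable (Eventually.of_forall fun x => by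
        rw [Real.norm_eq_abs]; exact Real.abs_cos_le_one _)
    have j2 : Integrable (fun x => v x * Real.cos (@inner ℝ P2 _ t x + (-(Real.pi / 2)))) μ :=
      hv.mul_bdd (c := 1) c2.aestronglyMeasurable (Eventually.of_forall fun x => by
        rw [Real.norm_eq_abs]; exact Real.abs_cos_le_one _)
    rw [integral_add j1.ofReal (j2.ofReal.mul_const _), integral_mul_const, integral_complex_ofReal,
      integral_complex_ofReal, h t 0, h t (-(Real.pi / 2))]
    simp
  have heq : μ1 = μ2 := Measure.ext_of_charFun hchar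
  have h3 : (fun x => ENNReal.ofReal (v x)) =ᵐ[μ] fun x => ENNReal.ofReal (-v x) := by
    rw [hμ1, hμ2] at heq
    refine (withDensity_eq_iff m1 m2 ?_).1 heq
    have := f1.measure_univ_lt_top
    rw [hμ1, withDensity_apply _ MeasurableSet.univ, Measure.restrict_univ] at this
    exact this.ne
  filter_upwards [h3] with x hx
  rcases le_total (v x) 0 with h | h
  · rw [ENNReal.ofReal_of_nonpos h] at hx
    have h4 := ENNReal.ofReal_eq_zero.1 hx.symm
    simp only [Pi.zero_apply]
    linarith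
  · rw [ENNReal.ofReal_of_nonpos (by linarith : -v x ≤ 0)] at hx
    have h4 := ENNReal.ofReal_eq_zero.1 hx
    simp only [Pi.zero_apply]
    linarith

/-- the constant is not zero -/
theorem Weak.c_ne (hb : Bornology.IsBounded Ω) (hΩ : IsOpen Ω) (H : Weak Ω lam c u G) : c ≠ 0 := by
  rintro rfl
  apply H.ne
  apply zero_of_cos (H.u_int hb)
  intro ξ θ
  -- first off the circle
  have h1 : ∀ ξ : P2, ‖ξ‖ ^ 2 ≠ lam → ∫ x in Ω, u x * Real.cos (@inner ℝ P2 _ ξ x + θ) = 0 := by
    intro ξ hξ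
    have h2 := H.fourier2 hb hΩ ξ θ
    rw [zero_mul, mul_zero] at h2
    rcases mul_eq_zero.1 h2 with h3 | h3
    · exact absurd (by linarith) hξ
    · exact h3
  by_cases hξ : ‖ξ‖ ^ 2 = lam
  · -- continuity
    have hcont : Continuous fun s : ℝ => ∫ x in Ω, u x * Real.cos (@inner ℝ P2 _ (s • ξ) x + θ) := by
      apply continuous_of_dominated (bound := fun x => ‖u x‖)
      · intro s
        exact (H.ucos_int hb (s • ξ) θ).1
      · intro s
        refine Eventually.of_forall fun x => ?_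
        rw [norm_mul]
        refine mul_le_of_le_one_right (norm_nonneg _) ?_
        rw [Real.norm_eq_abs]; exact Real.abs_cos_le_one _
      · exact (H.u_int hb).norm
      · refine Eventually.of_forall fun x => ?_
        fun_prop
    have hlim : Tendsto (fun s : ℝ => ∫ x in Ω, u x * Real.cos (@inner ℝ P2 _ (s • ξ) x + θ))
        (𝓝[>] 1) (𝓝 (∫ x in Ω, u x * Real.cos (@inner ℝ P2 _ ((1 : ℝ) • ξ) x + θ))) :=
      (hcont.tendsto 1).mono_left nhdsWithin_le_nhds
    have hzero : Tendsto (fun s : ℝ => ∫ x in Ω, u x * Real.cos (@inner ℝ P2 _ (s • ξ) x + θ))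
        (𝓝[>] 1) (𝓝 0) := by
      refine tendsto_const_nhds.congr' ?_
      filter_upwards [self_mem_nhdsWithin] with s hs
      have hs1 : (1 : ℝ) < s := hs
      symm
      apply h1
      rw [norm_smul, mul_pow, Real.norm_eq_abs, sq_abs, hξ]
      intro hc
      have h4 := H.lam_pos
      have h5 : s ^ 2 = 1 := by
        have : (s ^ 2 - 1) * lam = 0 := by linarith
        rcases mul_eq_zero.1 this with h6 | h6
        · linarith
        · linarith
      nlinarith
    have := tendsto_nhds_unique hlim hzero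
    rwa [one_smul] at this
  · exact h1 ξ hξ

/-- the Fourier transform of the indicator vanishes on a circle -/
theorem Weak.cos_zero (hb : Bornology.IsBounded Ω) (hΩ : IsOpen Ω) (H : Weak Ω lam c u G)
    (ξ : P2) (hξ : ‖ξ‖ ^ 2 = lam) (θ : ℝ) : ∫ x in Ω, Real.cos (@inner ℝ P2 _ ξ x + θ) = 0 := by
  have h1 := H.fourier2 hb hΩ ξ θ
  rw [hξ, sub_self, zero_mul] at h1
  rcases mul_eq_zero.1 h1.symm with h2 | h2
  · exact absurd h2 H.lam_pos.ne'
  · rcases mul_eq_zero.1 h2 with h3 | h3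
    · exact absurd h3 (H.c_ne hb hΩ)
    · exact h3

end Pool.Agent.Run7.h918.PP
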