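import Mathlib
import Pool.Agent.Run7.h918.PP.Fou
set_option autoImplicit false

/-! The Pompeiu property. -/

namespace Pool.Agent.Run7.h918.PP

open MeasureTheory Set Metric Filter Topology

variable {Ω : Set P2} {lam c : ℝ} {u : P2 → ℝ} {G : P2 → P2}

theorem closure_ae (h : LipBd Ω) (hΩ : IsOpen Ω) : (closure Ω : Set P2) =ᵐ[volume] Ω := by
  have h1 : (closure Ω : Set P2) = Ω ∪ frontier Ω := by
    rw [hΩ.frontier_eq, union_sdiff_self, union_eq_right.2 subset_closure]
  rw [h1]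
  exact union_ae_eq_left_of_ae_eq_empty (ae_eq_empty.2 (frontier_null h hΩ))

theorem Weak.cos_zero_closure (h : LipBd Ω) (hb : Bornology.IsBounded Ω) (hΩ : IsOpen Ω)
    (H : Weak Ω lam c u G) (ξ : P2) (hξ : ‖ξ‖ ^ 2 = lam) (θ : ℝ) :
    ∫ x in closure Ω, Real.cos (@inner ℝ P2 _ ξ x + θ) = 0 := by
  rw [setIntegral_congr_set (closure_ae h hΩ)]
  exact H.cos_zero hb hΩ ξ hξ θ

theorem Weak.exp_zero_closure (h : LipBd Ω) (hb : Bornology.IsBounded Ω) (hΩ : IsOpen Ω)
    (H : Weak Ω lam c u G) (ξ : P2) (hξ : ‖ξ‖ ^ 2 = lam) :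
    ∫ x in closure Ω, Complex.exp (((@inner ℝ P2 _ ξ x : ℝ) : ℂ) * Complex.I) = 0 := by
  have hb' : Bornology.IsBounded (closure Ω) := hb.closure
  have e1 : ∀ x : P2, Complex.exp (((@inner ℝ P2 _ ξ x : ℝ) : ℂ) * Complex.I) =
      ((Real.cos (@inner ℝ P2 _ ξ x + 0) : ℝ) : ℂ) +
        ((Real.cos (@inner ℝ P2 _ ξ x + (-(Real.pi / 2))) : ℝ) : ℂ) * Complex.I := by
    intro x
    rw [Complex.exp_mul_I, add_zero, ← sub_eq_add_neg, Real.cos_sub_pi_div_two]
    push_cast
    ring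
  simp only [e1]
  have j1 : Integrable (fun x : P2 => ((Real.cos (@inner ℝ P2 _ ξ x + 0) : ℝ) : ℂ))
      (volume.restrict (closure Ω)) := (cos_int hb' ξ 0).ofReal
  have j2 : Integrable (fun x : P2 =>
      ((Real.cos (@inner ℝ P2 _ ξ x + (-(Real.pi / 2))) : ℝ) : ℂ) * Complex.I)
      (volume.restrict (closure Ω)) := (cos_int hb' ξ (-(Real.pi / 2))).ofReal.mul_const _
  rw [integral_add j1 j2, integral_mul_const, integral_complex_ofReal, integral_complex_ofReal,
    H.cos_zero_closure h hb hΩ ξ hξ, H.cos_zero_closure h hb hΩ ξ hξ]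
  simp

/-- the integrals of a plane wave over the images of the closure under rigid motions vanish -/
theorem Weak.motion (h : LipBd Ω) (hb : Bornology.IsBounded Ω) (hΩ : IsOpen Ω)
    (H : Weak Ω lam c u G) (ξ : P2) (hξ : ‖ξ‖ ^ 2 = lam) (A : P2 ≃ₗᵢ[ℝ] P2) (b : P2) :
    ∫ x in (fun x => A x + b) '' closure Ω, ((Real.cos (@inner ℝ P2 _ ξ x) : ℝ) : ℂ) = 0 := by
  have hmp : MeasurePreserving (fun x => A x + b) (volume : Measure P2) (volume : Measure P2) :=
    (measurePreserving_add_right (volume : Measure P2) b).comp A.measurePreserving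
  have hemb : MeasurableEmbedding fun x : P2 => A x + b :=
    (A.toHomeomorph.trans (Homeomorph.addRight b)).measurableEmbedding
  rw [hmp.setIntegral_image_emb hemb]
  have e1 : ∀ x : P2, @inner ℝ P2 _ ξ (A x + b) =
      @inner ℝ P2 _ (A.symm ξ) x + @inner ℝ P2 _ ξ b := by
    intro x
    rw [inner_add_right]
    congr 1
    rw [← A.inner_map_map (A.symm ξ) x, LinearIsometryEquiv.apply_symm_apply]
  simp only [e1]
  rw [integral_complex_ofReal, H.cos_zero_closure h hb hΩ (A.symm ξ)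
    (by rw [LinearIsometryEquiv.norm_map]; exact hξ)]
  simp

end Pool.Agent.Run7.h918.PP
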