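import Mathlib
import Pool.Agent.Run7.h918.PP.Pom
set_option autoImplicit false
namespace Pool.Agent.Run7.h918.PP
open MeasureTheory Set Metric

/-- a map `x ↦ A x + b` with an orthogonal matrix `A` is a linear isometry followed by a
translation -/
theorem exists_isometry {n : ℕ} {g : EuclideanSpace ℝ (Fin n) → EuclideanSpace ℝ (Fin n)}
    {A : Matrix (Fin n) (Fin n) ℝ} {b : Fin n → ℝ} (hA : A * A.transpose = 1)
    (hg : ∀ x i, g x i = ∑ j, A i j * x j + b i) :
    ∃ (B : EuclideanSpace ℝ (Fin n) ≃ₗᵢ[ℝ] EuclideanSpace ℝ (Fin n))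
      (v : EuclideanSpace ℝ (Fin n)), g = fun x => B x + v := by
  have hA' : A.transpose * A = 1 := mul_eq_one_comm.1 hA
  set L : EuclideanSpace ℝ (Fin n) →ₗ[ℝ] EuclideanSpace ℝ (Fin n) := Matrix.toEuclideanLin A
    with hL
  have h1 : ∀ x i, L x i = ∑ j, A i j * x j := by
    intro x i
    rw [hL, Matrix.toEuclideanLin_apply]
    simp [Matrix.mulVec, dotProduct]
  have h2 : ∀ x, ‖L x‖ = ‖x‖ := by
    intro x
    have e1 : ∀ y : EuclideanSpace ℝ (Fin n), ‖y‖ ^ 2 = dotProduct y.ofLp y.ofLp := by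
      intro y
      rw [EuclideanSpace.norm_sq_eq]
      simp [dotProduct, sq]
    have e2 : (L x).ofLp = A.mulVec x.ofLp := by
      rw [hL, Matrix.toEuclideanLin_apply]
    have e3 : ‖L x‖ ^ 2 = ‖x‖ ^ 2 := by
      rw [e1, e1, e2, Matrix.dotProduct_mulVec, Matrix.vecMul_mulVec, hA', Matrix.vecMul_one]
    exact (sq_eq_sq₀ (norm_nonneg _) (norm_nonneg _)).1 e3
  refine ⟨LinearIsometry.toLinearIsometryEquiv ⟨L, h2⟩ rfl, WithLp.toLp 2 b, ?_⟩
  funext x
  ext i
  rw [hg, PiLp.add_apply, LinearIsometry.coe_toLinearIsometryEquiv]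
  change _ = L x i + _
  rw [h1]
end Pool.Agent.Run7.h918.PP
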